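import Pool.Agent.H20.MT.Stmts

/-! Project MTA: the end of the proof. -/

set_option autoImplicit false

namespace MTA
open Finset

namespace FINx

theorem few_primes {t K : ℕ} {x : ℝ} (hK : 1 ≤ K) (hx : 1 ≤ x) (h8 : 8 < x ^ (1 / (K : ℝ)))
    (ht0 : t ≠ 0) (ht : (t : ℝ) ≤ 8 * x)
    (hp : ∀ p ∈ t.primeFactors, x ^ (1 / (K : ℝ)) ≤ (p : ℝ)) : t.primeFactors.card ≤ K := by
  set y := x ^ (1 / (K : ℝ)) with hy
  have hKR : (0 : ℝ) < K := by exact_mod_cast hK
  have hyK : y ^ K = x := by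
    rw [hy, ← Real.rpow_natCast, ← Real.rpow_mul (by linarith), one_div,
      inv_mul_cancel₀ hKR.ne', Real.rpow_one]
  have h1 : y ^ t.primeFactors.card ≤ (t : ℝ) := by
    calc y ^ t.primeFactors.card = ∏ _p ∈ t.primeFactors, y := by rw [Finset.prod_const]
      _ ≤ ∏ p ∈ t.primeFactors, (p : ℝ) := by
          apply Finset.prod_le_prod
          · intro p _; linarith
          · exact hp
      _ = ((∏ p ∈ t.primeFactors, p : ℕ) : ℝ) := by push_cast; rfl
      _ ≤ (t : ℝ) := by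
          exact_mod_cast Nat.le_of_dvd (Nat.pos_of_ne_zero ht0) (Nat.prod_primeFactors_dvd t)
  have h2 : y ^ t.primeFactors.card < y ^ (K + 1) := by
    calc y ^ t.primeFactors.card ≤ 8 * x := h1.trans ht
      _ < y * x := by
          apply mul_lt_mul_of_pos_right h8 (by linarith)
      _ = y ^ (K + 1) := by rw [pow_succ, hyK, mul_comm]
  have h3 := (pow_lt_pow_iff_right₀ (by linarith : 1 < y)).1 h2
  omega

open Classical in
/-- exceptional integers -/
noncomputable def Ex {n : ℕ} (K : ℕ) (e : Fin n → ℕ) (T x : ℝ) : Finset ℕ :=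
  (Icc 1 ⌊8 * x⌋₊).filter (fun t => ∃ (j : Fin n) (σ : Fin K → Fin n), Function.Injective σ ∧
    (∀ i, σ i < j) ∧ 2 ^ e j * t + 1 ∈ GMset (fun i => e j - e (σ i)) T)

theorem Ex_card {n K : ℕ} (e : Fin n → ℕ) (C : Fin n → (Fin K → Fin n) → ℝ)
    (hC0 : ∀ j σ, 0 < C j σ) (T x B : ℝ) (hB : 0 ≤ B)
    (hC : ∀ j σ, Function.Injective σ → (∀ i, σ i < j) →
      (GMset (fun i => e j - e (σ i)) T).Finite ∧
      ((GMset (fun i => e j - e (σ i)) T).ncard : ℝ) ≤ C j σ * B) :
    ((Ex K e T x).card : ℝ) ≤ (∑ j, ∑ σ, C j σ) * B := by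
  classical
  let S : Fin n → (Fin K → Fin n) → Finset ℕ := fun j σ =>
    if Function.Injective σ ∧ ∀ i, σ i < j then
      (Icc 1 ⌊8 * x⌋₊).filter (fun t => 2 ^ e j * t + 1 ∈ GMset (fun i => e j - e (σ i)) T)
    else ∅
  have hsub : Ex K e T x ⊆ Finset.univ.biUnion fun j => Finset.univ.biUnion fun σ => S j σ := by
    intro t ht
    unfold Ex at ht
    rw [Finset.mem_filter] at ht
    obtain ⟨ht1, j, σ, h1, h2, h3⟩ := ht
    rw [Finset.mem_biUnion]
    refine ⟨j, Finset.mem_univ _, ?_⟩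
    rw [Finset.mem_biUnion]
    refine ⟨σ, Finset.mem_univ _, ?_⟩
    simp only [S]
    rw [if_pos ⟨h1, h2⟩, Finset.mem_filter]
    exact ⟨ht1, h3⟩
  have hS : ∀ j σ, ((S j σ).card : ℝ) ≤ C j σ * B := by
    intro j σ
    by_cases h : Function.Injective σ ∧ ∀ i, σ i < j
    · obtain ⟨hfin, hcard⟩ := hC j σ h.1 h.2
      refine le_trans ?_ hcard
      have h1 : (S j σ).card ≤ (GMset (fun i => e j - e (σ i)) T).ncard := by
        rw [← Set.ncard_coe_finset]
        refine Set.ncard_le_ncard_of_injOn (fun t => 2 ^ e j * t + 1) ?_ ?_ hfin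
        · intro t ht
          simp only [S] at ht
          rw [if_pos h, Finset.coe_filter] at ht
          exact ht.2
        · intro t _ t' _ htt
          have h2 : 2 ^ e j * t = 2 ^ e j * t' := by
            simp only at htt
            omega
          exact Nat.eq_of_mul_eq_mul_left (by positivity) h2
      exact_mod_cast h1
    · simp only [S]
      rw [if_neg h]
      simp only [Finset.card_empty, Nat.cast_zero]
      exact mul_nonneg (hC0 j σ).le hB
  calc ((Ex K e T x).card : ℝ) ≤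
        ((Finset.univ.biUnion fun j => Finset.univ.biUnion fun σ => S j σ).card : ℝ) := by
        exact_mod_cast Finset.card_le_card hsub
    _ ≤ ((∑ j, ∑ σ, (S j σ).card : ℕ) : ℝ) := by
        exact_mod_cast Finset.card_biUnion_le.trans
          (Finset.sum_le_sum fun j _ => Finset.card_biUnion_le)
    _ = ∑ j, ∑ σ, ((S j σ).card : ℝ) := by push_cast; rfl
    _ ≤ ∑ j, ∑ σ, C j σ * B := Finset.sum_le_sum fun j _ => Finset.sum_le_sum fun σ _ => hS j σ
    _ = (∑ j, ∑ σ, C j σ) * B := by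
        rw [Finset.sum_mul]
        exact Finset.sum_congr rfl fun j _ => by rw [Finset.sum_mul]

/-- the element of the progression in terms of the relation -/
theorem rel {q a c t d : ℕ} (hq : q = 2 ^ (a + d) * t + 1) (hc : c = 2 ^ a * t + 1) :
    ((2 ^ d : ℕ) : ZMod q) * (c : ZMod q) = ((2 ^ d - 1 : ℕ) : ZMod q) := by
  have h1 : 2 ^ d * c = q + (2 ^ d - 1) := by
    have h2 : 1 ≤ 2 ^ d := Nat.one_le_two_pow
    rw [hc, hq, pow_add]
    zify [h2]
    ring
  have h3 : ((2 ^ d * c : ℕ) : ZMod q) = ((q + (2 ^ d - 1) : ℕ) : ZMod q) := by rw [h1]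
  rw [Nat.cast_mul, Nat.cast_add, ZMod.natCast_self, zero_add] at h3
  exact h3

end FINx

open FINx

theorem FIN (hS : S_SIEVE) (hTu : S_TUP) (hGM : S_GM) : S_FIN := by
  classical
  intro N
  obtain ⟨K, hK1, hSv⟩ := hS
  obtain ⟨n, w0, hnw⟩ := hSv (K ^ 2 + 3)
  obtain ⟨e, W, b, he, he3, hTup, hJ, hpriv⟩ := hTu n w0
  have hKR : (1 : ℝ) ≤ K := by exact_mod_cast hK1
  have hK0 : (0 : ℝ) < K := by linarith
  -- Gupta-Murty constants
  have hex : ∀ (j : Fin n) (σ : Fin K → Fin n), ∃ C : ℝ, 0 < C ∧ (Function.Injective σ →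
      (∀ i, σ i < j) → ∀ T : ℝ, 1 ≤ T → (GMset (fun i => e j - e (σ i)) T).Finite ∧
      ((GMset (fun i => e j - e (σ i)) T).ncard : ℝ) ≤ C * T ^ (1 + 1 / (K : ℝ))) := by
    intro j σ
    by_cases h : Function.Injective σ ∧ ∀ i, σ i < j
    · obtain ⟨C, hC, hC'⟩ := hGM K (fun i => e j - e (σ i)) hK1 (by
        intro i
        have := he (h.2 i)
        show 1 ≤ e j - e (σ i)
        omega) (by
        intro i
        obtain ⟨l, hl, h1, h2⟩ := hpriv (σ i) j (h.2 i)
        exact ⟨l, hl, h1, fun i' hi' => h2 (σ i') (h.2 i') (fun h' => hi' (h.1 h'))⟩)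
      exact ⟨C, hC, fun _ _ => hC'⟩
    · exact ⟨1, one_pos, fun h1 h2 => absurd ⟨h1, h2⟩ h⟩
  choose C hC0 hC using hex
  set Ct := ∑ j, ∑ σ, C j σ with hCt
  have hCt0 : 0 ≤ Ct := Finset.sum_nonneg fun j _ => Finset.sum_nonneg fun σ _ => (hC0 j σ).le
  set E := ∑ i, e i with hE
  have heE : ∀ i, e i ≤ E := fun i => Finset.single_le_sum (f := e) (fun _ _ => Nat.zero_le _)
    (Finset.mem_univ i)
  set a0 : ℝ := 8 * 2 ^ E with ha0
  have ha01 : 1 ≤ a0 := by
    have : (1 : ℝ) ≤ 2 ^ E := one_le_pow₀ (by norm_num)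
    linarith
  set C' : ℝ := Ct * a0 ^ (1 + 1 / (K : ℝ)) with hC'
  have hC'0 : 0 ≤ C' := by positivity
  -- threshold
  have hev : ∀ᶠ x : ℝ in Filter.atTop, 1 ≤ x ∧ 8 * (N : ℝ) < x ∧ 8 < x ^ (1 / (K : ℝ)) ∧
      C' < x ^ (1 / (2 * (K : ℝ) ^ 2)) := by
    refine (Filter.eventually_ge_atTop 1).and ((Filter.eventually_gt_atTop _).and
      (((tendsto_rpow_atTop (by positivity)).eventually_gt_atTop _).and
      ((tendsto_rpow_atTop (by positivity)).eventually_gt_atTop _)))
  obtain ⟨N', hN'⟩ := Filter.eventually_atTop.1 hev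
  obtain ⟨x, hxN, hx⟩ := hnw (fun i => 2 ^ e i) W b hTup (1 / (2 * (K : ℝ) ^ 2)) (by positivity) N'
  obtain ⟨hx1, hxN2, hx8, hxC⟩ := hN' x hxN
  have hx0 : 0 < x := by linarith
  set T : ℝ := a0 * x ^ (1 - 1 / (K : ℝ)) with hT
  have hxp : 1 ≤ x ^ (1 - 1 / (K : ℝ)) := by
    apply Real.one_le_rpow hx1
    rw [sub_nonneg, div_le_one hK0]
    exact hKR
  have hT1 : 1 ≤ T := by
    rw [hT]
    nlinarith
  -- the exceptional set is small
  have hExc := Ex_card (K := K) e C hC0 T x (T ^ (1 + 1 / (K : ℝ))) (by positivity)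
    (fun j σ h1 h2 => hC j σ h1 h2 T hT1)
  have hExlt : ((Ex K e T x).card : ℝ) < x ^ (1 - 1 / (2 * (K : ℝ) ^ 2)) := by
    refine lt_of_le_of_lt hExc ?_
    have h1 : T ^ (1 + 1 / (K : ℝ)) = a0 ^ (1 + 1 / (K : ℝ)) * x ^ (1 - 1 / (K : ℝ) ^ 2) := by
      rw [hT, Real.mul_rpow (by linarith) (by positivity), ← Real.rpow_mul hx0.le]
      congr 2
      field_simp
      ring
    rw [h1]
    have h2 : x ^ (1 - 1 / (2 * (K : ℝ) ^ 2)) =
        x ^ (1 / (2 * (K : ℝ) ^ 2)) * x ^ (1 - 1 / (K : ℝ) ^ 2) := by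
      rw [← Real.rpow_add hx0]
      congr 1
      field_simp
      ring
    rw [h2, ← mul_assoc]
    exact mul_lt_mul_of_pos_right hxC (by positivity)
  obtain ⟨t, htS, htE⟩ := Finset.exists_mem_notMem_of_card_lt_card
    (show (Ex K e T x).card < _ by exact_mod_cast lt_of_lt_of_le hExlt hx)
  rw [Finset.mem_filter] at htS
  obtain ⟨htI, htx, htb, htp, htm⟩ := htS
  rw [Finset.mem_Icc] at htI
  have ht0 : t ≠ 0 := by omega
  have ht8 : (t : ℝ) ≤ 8 * x := (Nat.le_floor_iff (by positivity)).1 htI.2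
  have hcardt := few_primes hK1 hx1 hx8 ht0 ht8 htp
  -- the indices
  set Pr := Finset.univ.filter (fun i : Fin n => (2 ^ e i * t + 1).Prime) with hPr
  have htm' : K ^ 2 + 3 ≤ Pr.card := htm
  have hPrne : Pr.Nonempty := Finset.card_pos.1 (by omega)
  set j := Pr.max' hPrne with hj
  have hjP : j ∈ Pr := Finset.max'_mem _ _
  have hqp : (2 ^ e j * t + 1).Prime := (Finset.mem_filter.1 hjP).2
  set B := Pr.erase j with hB
  have hBc : K ^ 2 + 2 ≤ B.card := by
    rw [hB, Finset.card_erase_of_mem hjP]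
    omega
  have hBlt : ∀ i ∈ B, i < j ∧ (2 ^ e i * t + 1).Prime := by
    intro i hi
    rw [hB, Finset.mem_erase] at hi
    exact ⟨lt_of_le_of_ne (Finset.le_max' _ _ hi.2) hi.1, (Finset.mem_filter.1 hi.2).2⟩
  obtain ⟨q, hqdef⟩ : ∃ q, q = 2 ^ e j * t + 1 := ⟨_, rfl⟩
  rw [← hqdef] at hqp
  have : Fact q.Prime := ⟨hqp⟩
  have h8j : 8 ≤ 2 ^ e j := by
    calc 8 = 2 ^ 3 := by norm_num
      _ ≤ 2 ^ e j := Nat.pow_le_pow_right (by norm_num) (he3 j)
  have hq9 : 9 ≤ q := by
    rw [hqdef]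
    nlinarith [Nat.one_le_iff_ne_zero.2 ht0]
  have hq1 : q - 1 = 2 ^ e j * t := by omega
  -- few bad indices for every prime divisor of t
  have hbad : ∀ s ∈ t.primeFactors,
      (B.filter (fun i => ((2 ^ e i * t + 1 : ℕ) : ZMod q) ^ ((q - 1) / s) = 1)).card ≤ K - 1 := by
    intro s hs
    by_contra hcon
    apply htE
    have hKle : K ≤ (B.filter
        (fun i => ((2 ^ e i * t + 1 : ℕ) : ZMod q) ^ ((q - 1) / s) = 1)).card := by omega
    obtain ⟨S, hS, hSc⟩ := Finset.exists_subset_card_eq hKle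
    let f := (S.equivFinOfCardEq hSc).symm
    have hfB : ∀ i, (f i : Fin n) ∈ B ∧
        ((2 ^ e (f i : Fin n) * t + 1 : ℕ) : ZMod q) ^ ((q - 1) / s) = 1 := by
      intro i
      have := hS (f i).2
      rwa [Finset.mem_filter] at this
    unfold Ex
    rw [Finset.mem_filter]
    refine ⟨Finset.mem_Icc.2 htI, j, fun i => (f i : Fin n), ?_, fun i => (hBlt _ (hfB i).1).1, ?_⟩
    · intro i i' h
      exact f.injective (Subtype.ext h)
    · rw [← hqdef]
      have hsp := Nat.prime_of_mem_primeFactors hs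
      have hst : s ∣ t := Nat.dvd_of_mem_primeFactors hs
      have hsq : s ∣ q - 1 := by rw [hq1]; exact Dvd.dvd.mul_left hst _
      refine ⟨hqp, by omega, (q - 1) / s, ?_, ?_, ?_⟩
      · exact Nat.div_pos (Nat.le_of_dvd (by omega) hsq) hsp.pos
      · have h1 : (((q - 1) / s : ℕ) : ℝ) = (2 ^ e j * t : ℝ) / s := by
          rw [Nat.cast_div hsq (by exact_mod_cast hsp.ne_zero), hq1]
          push_cast
          rfl
        rw [h1]
        have hs0 : (0 : ℝ) < s := by exact_mod_cast hsp.pos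
        have hss := htp s hs
        rw [div_le_iff₀ hs0]
        have h2 : x ^ (1 - 1 / (K : ℝ)) * x ^ (1 / (K : ℝ)) = x := by
          rw [← Real.rpow_add hx0, sub_add_cancel, Real.rpow_one]
        have h3 : (2 : ℝ) ^ e j ≤ 2 ^ E := pow_le_pow_right₀ (by norm_num) (heE j)
        calc (2 : ℝ) ^ e j * t ≤ 2 ^ E * (8 * x) := by
              apply mul_le_mul h3 ht8 (by positivity) (by positivity)
          _ = a0 * (x ^ (1 - 1 / (K : ℝ)) * x ^ (1 / (K : ℝ))) := by rw [h2, ha0]; ring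
          _ = T * x ^ (1 / (K : ℝ)) := by rw [hT]; ring
          _ ≤ T * s := mul_le_mul_of_nonneg_left hss (by linarith)
      · intro i
        have h1 := (hfB i).2
        have hlt : e (f i : Fin n) < e j := he (hBlt _ (hfB i).1).1
        have h2 := rel (q := q) (a := e (f i : Fin n)) (c := 2 ^ e (f i : Fin n) * t + 1) (t := t)
          (d := e j - e (f i : Fin n)) (by rw [hqdef]; congr 3; omega) rfl
        rw [← h2, mul_pow, h1, mul_one]
  -- a good index
  obtain ⟨i, hiB, hi⟩ : ∃ i ∈ B, ∀ s ∈ t.primeFactors,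
      ((2 ^ e i * t + 1 : ℕ) : ZMod q) ^ ((q - 1) / s) ≠ 1 := by
    by_contra hcon
    push Not at hcon
    have hsub : B ⊆ t.primeFactors.biUnion fun s =>
        B.filter (fun i => ((2 ^ e i * t + 1 : ℕ) : ZMod q) ^ ((q - 1) / s) = 1) := by
      intro i hi
      obtain ⟨s, hs, h⟩ := hcon i hi
      rw [Finset.mem_biUnion]
      exact ⟨s, hs, Finset.mem_filter.2 ⟨hi, h⟩⟩
    have h1 := (Finset.card_le_card hsub).trans Finset.card_biUnion_le
    have h2 := h1.trans (Finset.sum_le_sum hbad)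
    rw [Finset.sum_const, smul_eq_mul] at h2
    have h3 : t.primeFactors.card * (K - 1) ≤ K * K :=
      Nat.mul_le_mul hcardt (Nat.sub_le _ _)
    have h4 : K ^ 2 = K * K := sq K
    omega
  obtain ⟨hij, hpp⟩ := hBlt i hiB
  have heij : e i < e j := he hij
  have hJij := hJ i j hij t htb
  rw [← hqdef] at hJij
  set p := 2 ^ e i * t + 1 with hp
  have hpq : p < q := by
    rw [hp, hqdef]
    have : 2 ^ e i < 2 ^ e j := Nat.pow_lt_pow_right (by norm_num) heij
    nlinarith [Nat.one_le_iff_ne_zero.2 ht0]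
  have hp0 : ((p : ℕ) : ZMod q) ≠ 0 := by
    intro h
    rw [ZMod.natCast_eq_zero_iff] at h
    have := Nat.le_of_dvd (by omega) h
    omega
  refine ⟨p, q, ?_, hpp, hqp, by omega, ?_, ?_⟩
  · have h1 : (N : ℝ) < t := by linarith
    have h2 : N < t := by exact_mod_cast h1
    have h3 : 1 ≤ 2 ^ e i := Nat.one_le_two_pow
    rw [hp]
    nlinarith
  · rw [hq1, hp, Nat.add_sub_cancel]
    exact Nat.mul_dvd_mul_right (pow_dvd_pow 2 heij.le) t
  · apply orderOf_eq_of_pow_and_pow_div_prime (by omega)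
    · exact ZMod.pow_card_sub_one_eq_one hp0
    · intro s hs hsd
      rw [hq1] at hsd
      rcases (Nat.Prime.dvd_mul hs).1 hsd with h | h
      · have hs2 : s = 2 := (Nat.prime_dvd_prime_iff_eq hs Nat.prime_two).1 (hs.dvd_of_dvd_pow h)
        subst hs2
        have h1 : legendreSym q (p : ℤ) = -1 := by
          rw [jacobiSym.legendreSym.to_jacobiSym]
          exact_mod_cast hJij
        have h2 := legendreSym.eq_pow q (p : ℤ)
        rw [h1] at h2
        have hodd : q / 2 = (q - 1) / 2 := by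
          rcases hqp.eq_two_or_odd with h | h <;> omega
        rw [hodd] at h2
        push_cast at h2
        intro h3
        rw [h3] at h2
        have h4 : (2 : ZMod q) = 0 := by
          have : (-1 : ZMod q) = 1 := h2
          calc (2 : ZMod q) = 1 + 1 := by ring
            _ = 1 + (-1) := by rw [this]
            _ = 0 := by ring
        have h5 : ((2 : ℕ) : ZMod q) = 0 := by exact_mod_cast h4
        rw [ZMod.natCast_eq_zero_iff] at h5
        have := Nat.le_of_dvd (by norm_num) h5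
        omega
      · exact hi s (Nat.mem_primeFactors.2 ⟨hs, h, ht0⟩)

end MTA
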