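import Pool.Agent.H20.MT.Stmts

/-! Project MTA: the Gupta-Murty counting lemma. -/

set_option autoImplicit false

namespace MTA
open Finset

namespace GMx

/-- one side of the relation attached to two vectors of exponents -/
def side {K : ℕ} (d : Fin K → ℕ) (a b : Fin K → ℕ) : ℕ :=
  (∏ i, (2 ^ d i - 1) ^ a i) * ∏ i, (2 ^ d i) ^ b i

/-- the integer attached to a vector of exponents -/
def Xc {K : ℕ} (d : Fin K → ℕ) (c : Fin K → ℤ) : ℤ :=
  (side d (fun i => (c i).toNat) (fun i => (-c i).toNat) : ℤ) -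
    (side d (fun i => (-c i).toNat) (fun i => (c i).toNat) : ℤ)

theorem not_dvd_side {K : ℕ} (d : Fin K → ℕ) (hd : ∀ i, 1 ≤ d i) (a b : Fin K → ℕ) (i : Fin K)
    (l : ℕ) (hl : l.Prime) (h1 : l ∣ 2 ^ d i - 1) (hp : ∀ i', i' ≠ i → ¬ l ∣ 2 ^ d i' - 1)
    (hi : a i = 0) : ¬ l ∣ side d a b := by
  intro h
  rcases (Nat.Prime.dvd_mul hl).1 h with h | h
  · obtain ⟨i', -, hi'⟩ := (hl.prime.dvd_finsetProd_iff _).1 h
    by_cases he : i' = i
    · rw [he, hi, pow_zero] at hi'
      exact hl.one_lt.ne' (Nat.dvd_one.1 hi')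
    · exact hp i' he (hl.dvd_of_dvd_pow hi')
  · obtain ⟨i', -, hi'⟩ := (hl.prime.dvd_finsetProd_iff _).1 h
    have h2 : l ∣ 2 := hl.dvd_of_dvd_pow (hl.dvd_of_dvd_pow hi')
    have h3 : l = 2 := (Nat.prime_dvd_prime_iff_eq hl Nat.prime_two).1 h2
    rw [h3] at h1
    have h4 : 2 ∣ 2 ^ d i := dvd_pow_self 2 (by have := hd i; omega)
    have h5 : 1 ≤ 2 ^ d i := Nat.one_le_two_pow
    omega

theorem dvd_side {K : ℕ} (d : Fin K → ℕ) (a b : Fin K → ℕ) (i : Fin K)
    (l : ℕ) (h1 : l ∣ 2 ^ d i - 1) (hi : a i ≠ 0) : l ∣ side d a b := by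
  unfold side
  apply Dvd.dvd.mul_right
  exact (h1.trans (dvd_pow_self _ hi)).trans (Finset.dvd_prod_of_mem _ (Finset.mem_univ i))

theorem Xc_ne {K : ℕ} (d : Fin K → ℕ) (hd : ∀ i, 1 ≤ d i)
    (hp : ∀ i, ∃ l : ℕ, l.Prime ∧ l ∣ 2 ^ d i - 1 ∧ ∀ i', i' ≠ i → ¬ l ∣ 2 ^ d i' - 1)
    (c : Fin K → ℤ) (hc : c ≠ 0) : Xc d c ≠ 0 := by
  intro h
  have h' : side d (fun i => (c i).toNat) (fun i => (-c i).toNat) =
      side d (fun i => (-c i).toNat) (fun i => (c i).toNat) := by
    unfold Xc at h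
    have := sub_eq_zero.1 h
    exact_mod_cast this
  obtain ⟨i, hi⟩ : ∃ i, c i ≠ 0 := by
    by_contra hcon
    push Not at hcon
    exact hc (funext hcon)
  obtain ⟨l, hl, h1, h2⟩ := hp i
  rcases lt_or_gt_of_ne hi with h3 | h3
  · have h4 := not_dvd_side d hd (fun i => (c i).toNat) (fun i => (-c i).toNat) i l hl h1 h2
      (by omega)
    rw [h'] at h4
    exact h4 (dvd_side d _ _ i l h1 (by omega))
  · have h4 := not_dvd_side d hd (fun i => (-c i).toNat) (fun i => (c i).toNat) i l hl h1 h2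
      (by omega)
    rw [← h'] at h4
    exact h4 (dvd_side d _ _ i l h1 (by omega))

theorem side_le {K : ℕ} (d : Fin K → ℕ) (a b : Fin K → ℕ) (A : ℕ) (h : ∀ i, a i + b i ≤ A) :
    side d a b ≤ 2 ^ (A * ∑ i, d i) := by
  unfold side
  rw [← Finset.prod_mul_distrib]
  calc ∏ i, (2 ^ d i - 1) ^ a i * (2 ^ d i) ^ b i ≤ ∏ i, (2 ^ d i) ^ A := by
        apply Finset.prod_le_prod'
        intro i _
        calc (2 ^ d i - 1) ^ a i * (2 ^ d i) ^ b i ≤ (2 ^ d i) ^ a i * (2 ^ d i) ^ b i :=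
              Nat.mul_le_mul_right _ (Nat.pow_le_pow_left (Nat.sub_le _ _) _)
          _ = (2 ^ d i) ^ (a i + b i) := (pow_add _ _ _).symm
          _ ≤ (2 ^ d i) ^ A := Nat.pow_le_pow_right Nat.one_le_two_pow (h i)
    _ = 2 ^ (A * ∑ i, d i) := by
        rw [Finset.mul_sum, ← Finset.prod_pow_eq_pow_sum]
        apply Finset.prod_congr rfl
        intro i _
        rw [← pow_mul, mul_comm]

theorem Xc_card {K : ℕ} (d : Fin K → ℕ) (hd : ∀ i, 1 ≤ d i)
    (hp : ∀ i, ∃ l : ℕ, l.Prime ∧ l ∣ 2 ^ d i - 1 ∧ ∀ i', i' ≠ i → ¬ l ∣ 2 ^ d i' - 1)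
    (c : Fin K → ℤ) (hc : c ≠ 0) (A : ℕ) (hA : ∀ i, |c i| ≤ A) :
    (Xc d c).natAbs.primeFactors.card ≤ A * ∑ i, d i := by
  have h1 := side_le d (fun i => (c i).toNat) (fun i => (-c i).toNat) A (by
    intro i
    have := hA i
    rcases abs_cases (c i) with h | h <;> omega)
  have h2 := side_le d (fun i => (-c i).toNat) (fun i => (c i).toNat) A (by
    intro i
    have := hA i
    rcases abs_cases (c i) with h | h <;> omega)
  have h3 : (Xc d c).natAbs ≤ 2 ^ (A * ∑ i, d i) := by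
    unfold Xc
    generalize side d (fun i => (c i).toNat) (fun i => (-c i).toNat) = s1 at *
    generalize side d (fun i => (-c i).toNat) (fun i => (c i).toNat) = s2 at *
    generalize 2 ^ (A * ∑ i, d i) = s3 at *
    omega
  have hne : (Xc d c).natAbs ≠ 0 := by
    rw [Int.natAbs_ne_zero]
    exact Xc_ne d hd hp c hc
  have h4 : 2 ^ (Xc d c).natAbs.primeFactors.card ≤ (Xc d c).natAbs := by
    calc 2 ^ (Xc d c).natAbs.primeFactors.card = ∏ p ∈ (Xc d c).natAbs.primeFactors, 2 := by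
          rw [Finset.prod_const]
      _ ≤ ∏ p ∈ (Xc d c).natAbs.primeFactors, p := by
          apply Finset.prod_le_prod'
          intro p hp
          exact (Nat.prime_of_mem_primeFactors hp).two_le
      _ ≤ (Xc d c).natAbs := Nat.le_of_dvd (Nat.pos_of_ne_zero hne) (Nat.prod_primeFactors_dvd _)
  exact (Nat.pow_le_pow_iff_right (by norm_num)).1 (h4.trans h3)

theorem cast_side {K : ℕ} (d : Fin K → ℕ) (a b : Fin K → ℕ) (q : ℕ) :
    ((side d a b : ℕ) : ZMod q) = (∏ i, ((2 ^ d i - 1 : ℕ) : ZMod q) ^ a i) *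
      ∏ i, ((2 ^ d i : ℕ) : ZMod q) ^ b i := by
  unfold side
  push_cast
  rfl

theorem exists_c {K : ℕ} (d : Fin K → ℕ) (A : ℕ) (q M : ℕ) (hq : q.Prime) (hq2 : q ≠ 2)
    (hM : 1 ≤ M) (hMA : M < (A + 1) ^ K)
    (h : ∀ i, ((2 ^ d i - 1 : ℕ) : ZMod q) ^ M = ((2 ^ d i : ℕ) : ZMod q) ^ M) :
    ∃ c : Fin K → ℤ, c ≠ 0 ∧ (∀ i, |c i| ≤ A) ∧ (q : ℤ) ∣ Xc d c := by
  classical
  have : Fact q.Prime := ⟨hq⟩
  have h20 : (2 : ZMod q) ≠ 0 := by
    intro h0
    have : ((2 : ℕ) : ZMod q) = 0 := by exact_mod_cast h0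
    rw [ZMod.natCast_eq_zero_iff] at this
    exact hq2 ((Nat.prime_dvd_prime_iff_eq hq Nat.prime_two).1 this)
  have ht : ∀ i, ((2 ^ d i : ℕ) : ZMod q) ≠ 0 := by
    intro i
    push_cast
    exact pow_ne_zero _ h20
  have hu : ∀ i, ((2 ^ d i - 1 : ℕ) : ZMod q) ≠ 0 := by
    intro i h0
    have := h i
    rw [h0, zero_pow (by omega)] at this
    exact pow_ne_zero _ (ht i) this.symm
  set g : Fin K → ZMod q := fun i => ((2 ^ d i - 1 : ℕ) : ZMod q) / ((2 ^ d i : ℕ) : ZMod q) with hg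
  have hg0 : ∀ i, g i ≠ 0 := fun i => div_ne_zero (hu i) (ht i)
  have hgM : ∀ i, g i ^ M = 1 := by
    intro i
    rw [hg]
    simp only
    rw [div_pow, h i, div_self (pow_ne_zero _ (ht i))]
  let φ : (Fin K → Fin (A + 1)) → ZMod q := fun a => ∏ i, g i ^ (a i : ℕ)
  obtain ⟨a, -, b, -, hab, hφ⟩ := Finset.exists_ne_map_eq_of_card_lt_of_maps_to
    (s := (Finset.univ : Finset (Fin K → Fin (A + 1))))
    (t := (Polynomial.nthRoots M (1 : ZMod q)).toFinset) (f := φ) (by
      refine lt_of_le_of_lt (Multiset.toFinset_card_le _) ?_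
      refine lt_of_le_of_lt (Polynomial.card_nthRoots M 1) ?_
      rw [Finset.card_univ, Fintype.card_fun, Fintype.card_fin, Fintype.card_fin]
      exact hMA) (by
      intro a _
      rw [Finset.mem_coe, Multiset.mem_toFinset, Polynomial.mem_nthRoots (by omega)]
      show (∏ i, g i ^ (a i : ℕ)) ^ M = 1
      rw [← Finset.prod_pow]
      apply Finset.prod_eq_one
      intro i _
      rw [← pow_mul, mul_comm, pow_mul, hgM, one_pow])
  let c : Fin K → ℤ := fun i => ((a i : ℕ) : ℤ) - ((b i : ℕ) : ℤ)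
  refine ⟨c, ?_, ?_, ?_⟩
  · intro h0
    apply hab
    ext i
    have := congrFun h0 i
    simp only [c, Pi.zero_apply] at this
    omega
  · intro i
    have h1 := (a i).isLt
    have h2 := (b i).isLt
    simp only [c]
    rw [abs_le]
    constructor <;> omega
  · -- the relation modulo q
    have h1 : (∏ i, g i ^ (c i).toNat) = ∏ i, g i ^ (-c i).toNat := by
      have e1 : (∏ i, g i ^ (a i : ℕ)) = (∏ i, g i ^ (c i).toNat) *
          ∏ i, g i ^ (min (a i : ℕ) (b i : ℕ)) := by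
        rw [← Finset.prod_mul_distrib]
        apply Finset.prod_congr rfl
        intro i _
        rw [← pow_add]
        congr 1
        simp only [c]
        omega
      have e2 : (∏ i, g i ^ (b i : ℕ)) = (∏ i, g i ^ (-c i).toNat) *
          ∏ i, g i ^ (min (a i : ℕ) (b i : ℕ)) := by
        rw [← Finset.prod_mul_distrib]
        apply Finset.prod_congr rfl
        intro i _
        rw [← pow_add]
        congr 1
        simp only [c]
        omega
      have e3 : φ a = φ b := hφ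
      simp only [φ] at e3
      rw [e1, e2] at e3
      exact mul_right_cancel₀ (Finset.prod_ne_zero_iff.2 fun i _ => pow_ne_zero _ (hg0 i)) e3
    have h2 : ((side d (fun i => (c i).toNat) (fun i => (-c i).toNat) : ℕ) : ZMod q) =
        ((side d (fun i => (-c i).toNat) (fun i => (c i).toNat) : ℕ) : ZMod q) := by
      rw [cast_side, cast_side]
      have h3 : ∀ a : Fin K → ℕ, (∏ i, g i ^ a i) * (∏ i, ((2 ^ d i : ℕ) : ZMod q) ^ a i) =
          ∏ i, ((2 ^ d i - 1 : ℕ) : ZMod q) ^ a i := by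
        intro a
        rw [← Finset.prod_mul_distrib]
        apply Finset.prod_congr rfl
        intro i _
        rw [← mul_pow]
        congr 1
        simp only [hg]
        exact div_mul_cancel₀ _ (ht i)
      rw [← h3, ← h3, h1]
      ring
    have h3 : ((Xc d c : ℤ) : ZMod q) = 0 := by
      unfold Xc
      rw [Int.cast_sub, Int.cast_natCast, Int.cast_natCast, h2, sub_self]
    exact (ZMod.intCast_zmod_eq_zero_iff_dvd _ _).1 h3

end GMx

open GMx

theorem GM : S_GM := by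
  classical
  intro K d hK hd hp
  set Ds := ∑ i, d i with hDs
  refine ⟨3 ^ K * (Ds + 1), by positivity, fun T hT => ?_⟩
  have hKR : (0 : ℝ) < K := by exact_mod_cast hK
  set τ : ℝ := T ^ (1 / (K : ℝ)) with hτ
  have hτ1 : 1 ≤ τ := Real.one_le_rpow hT (by positivity)
  have hτK : τ ^ K = T := by
    rw [hτ, ← Real.rpow_natCast, ← Real.rpow_mul (by linarith), one_div,
      inv_mul_cancel₀ hKR.ne', Real.rpow_one]
  set A : ℕ := ⌊τ⌋₊ with hA
  have hA1 : 1 ≤ A := Nat.floor_pos.2 hτ1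
  have hAτ : (A : ℝ) ≤ τ := Nat.floor_le (by linarith)
  have hτA : τ < A + 1 := Nat.lt_floor_add_one τ
  let CC : Finset (Fin K → ℤ) := (Fintype.piFinset fun _ => Finset.Icc (-(A : ℤ)) A).filter (· ≠ 0)
  let Bs : Finset ℕ := CC.biUnion fun c => (Xc d c).natAbs.primeFactors
  have hsub : GMset d T ⊆ (Bs : Set ℕ) := by
    rintro q ⟨hq, hq2, M, hM1, hMT, hM⟩
    have hMA : M < (A + 1) ^ K := by
      have h1 : T < ((A + 1 : ℕ) : ℝ) ^ K := by
        rw [← hτK]
        push_cast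
        exact pow_lt_pow_left₀ hτA (by linarith) (by omega)
      have h2 : (M : ℝ) < (((A + 1) ^ K : ℕ) : ℝ) := by
        push_cast at h1 ⊢
        linarith
      exact_mod_cast h2
    obtain ⟨c, hc0, hcA, hqc⟩ := exists_c d A q M hq hq2 hM1 hMA (by
      intro i
      have := hM i
      exact_mod_cast this)
    rw [Finset.mem_coe, Finset.mem_biUnion]
    refine ⟨c, ?_, ?_⟩
    · rw [Finset.mem_filter, Fintype.mem_piFinset]
      refine ⟨fun i => ?_, hc0⟩
      rw [Finset.mem_Icc]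
      exact abs_le.1 (hcA i)
    · rw [Nat.mem_primeFactors]
      refine ⟨hq, ?_, ?_⟩
      · exact Int.natCast_dvd.1 hqc
      · rw [Int.natAbs_ne_zero]
        exact Xc_ne d hd hp c hc0
  have hBs : Bs.card ≤ (2 * A + 1) ^ K * (A * Ds) := by
    refine Finset.card_biUnion_le.trans ?_
    have h1 : ∑ c ∈ CC, (Xc d c).natAbs.primeFactors.card ≤ ∑ c ∈ CC, A * Ds := by
      apply Finset.sum_le_sum
      intro c hc
      rw [Finset.mem_filter, Fintype.mem_piFinset] at hc
      exact Xc_card d hd hp c hc.2 A (fun i => by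
        have := Finset.mem_Icc.1 (hc.1 i)
        rw [abs_le]; exact this)
    refine h1.trans ?_
    rw [Finset.sum_const, smul_eq_mul]
    apply Nat.mul_le_mul_right
    refine (Finset.card_filter_le _ _).trans ?_
    rw [Fintype.card_piFinset]
    simp only [Int.card_Icc, Finset.prod_const, Finset.card_univ, Fintype.card_fin]
    apply Nat.pow_le_pow_left
    omega
  refine ⟨(Finset.finite_toSet Bs).subset hsub, ?_⟩
  have h1 : (GMset d T).ncard ≤ Bs.card := by
    have := Set.ncard_le_ncard hsub (Finset.finite_toSet Bs)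
    rwa [Set.ncard_coe_finset] at this
  have h2 : ((GMset d T).ncard : ℝ) ≤ (2 * A + 1) ^ K * (A * Ds) := by
    exact_mod_cast h1.trans hBs
  refine h2.trans ?_
  have hA1' : (1 : ℝ) ≤ A := by exact_mod_cast hA1
  have h3 : (2 * (A : ℝ) + 1) ^ K ≤ 3 ^ K * T := by
    rw [← hτK, ← mul_pow]
    apply pow_le_pow_left₀ (by linarith)
    linarith
  have h4 : T ^ (1 + 1 / (K : ℝ)) = T * τ := by
    rw [Real.rpow_add (by linarith), Real.rpow_one]
  rw [h4]
  have hDs0 : (0 : ℝ) ≤ Ds := Nat.cast_nonneg _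
  calc (2 * (A : ℝ) + 1) ^ K * (A * Ds) ≤ (3 ^ K * T) * (τ * (Ds + 1)) := by
        apply mul_le_mul h3 _ (by positivity) (by positivity)
        apply mul_le_mul hAτ (by linarith) hDs0 (by linarith)
    _ = _ := by ring

end MTA
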