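import Pool.Agent.H20.MT.Stmts

/-! Project MTA: the tuple. -/

set_option autoImplicit false

namespace MTA
open Finset
open scoped NumberTheorySymbols

namespace TUPx

/-- admissible residue -/
def ok {n : ℕ} (e : Fin n → ℕ) (l r : ℕ) : Prop := ¬ l ∣ r ∧ ∀ k, ¬ l ∣ 2 ^ e k * r + 1

theorem ok_congr {n : ℕ} {e : Fin n → ℕ} {l r r' : ℕ} (h : r ≡ r' [MOD l]) (h' : ok e l r') :
    ok e l r := by
  refine ⟨fun h1 => h'.1 ((h.dvd_iff (dvd_refl l)).1 h1), fun k h1 => h'.2 k ?_⟩
  have h2 : 2 ^ e k * r + 1 ≡ 2 ^ e k * r' + 1 [MOD l] := (h.mul_left _).add_right _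
  exact (h2.dvd_iff (dvd_refl l)).1 h1

/-- both signs are taken equally often -/
theorem card_sign {l : ℕ} [Fact l.Prime] (hl : l ≠ 2) (σ : ℤ) (hσ : σ = 1 ∨ σ = -1) :
    2 * (univ.filter (fun y : ZMod l => quadraticChar (ZMod l) y = σ)).card = l - 1 := by
  classical
  have hsum := quadraticChar_sum_zero (F := ZMod l) (by rw [ZMod.ringChar_zmod_n]; exact hl)
  have hdich : ∀ y : ZMod l, quadraticChar (ZMod l) y =
      (if quadraticChar (ZMod l) y = 1 then 1 else 0) -
        (if quadraticChar (ZMod l) y = -1 then 1 else 0) := by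
    intro y
    by_cases hy : y = 0
    · subst hy
      have : quadraticChar (ZMod l) 0 = 0 := MulChar.map_zero _
      rw [this]; norm_num
    · rcases quadraticChar_dichotomy hy with h | h <;> rw [h] <;> norm_num
  rw [Finset.sum_congr rfl (fun y _ => hdich y), Finset.sum_sub_distrib] at hsum
  have hone : ∀ y : ZMod l, (if quadraticChar (ZMod l) y = 1 then (1 : ℤ) else 0) +
      (if quadraticChar (ZMod l) y = -1 then 1 else 0) = if y = 0 then 0 else 1 := by
    intro y
    by_cases hy : y = 0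
    · subst hy
      have : quadraticChar (ZMod l) 0 = 0 := MulChar.map_zero _
      rw [this]; norm_num
    · rcases quadraticChar_dichotomy hy with h | h <;> rw [h, if_neg hy] <;> norm_num
  have hsum2 := Finset.sum_congr rfl (fun (y : ZMod l) (_ : y ∈ univ) => hone y)
  rw [Finset.sum_add_distrib] at hsum2
  have e1 : ∑ y : ZMod l, (if y = 0 then (0 : ℤ) else 1) = l - 1 := by
    have : ∀ y : ZMod l, (if y = 0 then (0 : ℤ) else 1) = 1 - (if y = 0 then 1 else 0) := by
      intro y; split_ifs <;> norm_num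
    rw [Finset.sum_congr rfl (fun y _ => this y), Finset.sum_sub_distrib]
    simp [ZMod.card]
  rw [e1] at hsum2
  rw [Finset.sum_boole, Finset.sum_boole] at hsum hsum2
  have hl1 : 1 ≤ l := (Fact.out : l.Prime).one_lt.le
  rcases hσ with rfl | rfl <;> omega

theorem two_ne {l : ℕ} [Fact l.Prime] (hl : 2 < l) : (2 : ZMod l) ≠ 0 := by
  intro h
  have h2 : ((2 : ℕ) : ZMod l) = 0 := by exact_mod_cast h
  rw [ZMod.natCast_eq_zero_iff] at h2
  exact absurd (Nat.le_of_dvd (by norm_num) h2) (by omega)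

theorem ok_of {n : ℕ} (e : Fin n → ℕ) {l : ℕ} [Fact l.Prime] (z : ZMod l) (h0 : z ≠ 0)
    (h1 : ∀ k, (2 : ZMod l) ^ e k * z + 1 ≠ 0) : ok e l z.val := by
  refine ⟨fun h => h0 ?_, fun k h => h1 k ?_⟩
  · rw [← ZMod.natCast_eq_zero_iff, ZMod.natCast_zmod_val] at h; exact h
  · rw [← ZMod.natCast_eq_zero_iff] at h
    push_cast at h
    rwa [ZMod.natCast_zmod_val] at h

theorem exists_r {n : ℕ} (e : Fin n → ℕ) {l : ℕ} [Fact l.Prime] (hl : 2 * n + 8 ≤ l) (j : Fin n)
    (σ : ℤ) (hσ : σ = 1 ∨ σ = -1) :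
    ∃ r : ℕ, ok e l r ∧ quadraticChar (ZMod l) ((2 : ZMod l) ^ e j * r + 1) = σ := by
  classical
  have h2 : (2 : ZMod l) ≠ 0 := two_ne (by omega)
  have ha : ∀ k, (2 : ZMod l) ^ e k ≠ 0 := fun k => pow_ne_zero _ h2
  set S := univ.filter (fun y : ZMod l => quadraticChar (ZMod l) y = σ) with hS
  set T : Finset (ZMod l) := insert 1 (univ.image (fun k : Fin n =>
    1 - (2 : ZMod l) ^ e j * ((2 : ZMod l) ^ e k)⁻¹)) with hT
  have hTc : T.card ≤ n + 1 := by
    refine (Finset.card_insert_le _ _).trans ?_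
    have := Finset.card_image_le (s := (univ : Finset (Fin n))) (f := fun k : Fin n =>
      1 - (2 : ZMod l) ^ e j * ((2 : ZMod l) ^ e k)⁻¹)
    simp only [Finset.card_univ, Fintype.card_fin] at this
    omega
  have hSc := card_sign (l := l) (by omega) σ hσ
  rw [← hS] at hSc
  obtain ⟨y, hyS, hyT⟩ := Finset.exists_mem_notMem_of_card_lt_card (s := T) (t := S) (by omega)
  rw [hS, mem_filter] at hyS
  rw [hT, mem_insert, not_or] at hyT
  refine ⟨((y - 1) * ((2 : ZMod l) ^ e j)⁻¹).val, ok_of e _ ?_ ?_, ?_⟩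
  · exact mul_ne_zero (sub_ne_zero.2 hyT.1) (inv_ne_zero (ha j))
  · intro k hk
    apply hyT.2
    rw [mem_image]
    refine ⟨k, mem_univ _, ?_⟩
    have h3 : (2 : ZMod l) ^ e k * ((y - 1) * ((2 : ZMod l) ^ e j)⁻¹) = -1 := eq_neg_of_add_eq_zero_left hk
    have h4 : (y - 1) = - ((2 : ZMod l) ^ e j * ((2 : ZMod l) ^ e k)⁻¹) := by
      calc (y - 1) = ((2 : ZMod l) ^ e k * ((y - 1) * ((2 : ZMod l) ^ e j)⁻¹)) *
            ((2 : ZMod l) ^ e j * ((2 : ZMod l) ^ e k)⁻¹) := by
            field_simp [ha j, ha k]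
        _ = _ := by rw [h3]; ring
    linear_combination -h4
  · rw [ZMod.natCast_zmod_val]
    have : (2 : ZMod l) ^ e j * ((y - 1) * ((2 : ZMod l) ^ e j)⁻¹) + 1 = y := by
      field_simp [ha j]; ring
    rw [this]; exact hyS.2

theorem exists_r0 {n : ℕ} (e : Fin n → ℕ) {l : ℕ} [Fact l.Prime] (hl : 2 * n + 8 ≤ l) :
    ∃ r : ℕ, ok e l r := by
  classical
  have h2 : (2 : ZMod l) ≠ 0 := two_ne (by omega)
  have ha : ∀ k, (2 : ZMod l) ^ e k ≠ 0 := fun k => pow_ne_zero _ h2
  set T : Finset (ZMod l) := insert 0 (univ.image (fun k : Fin n => - ((2 : ZMod l) ^ e k)⁻¹)) with hT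
  have hTc : T.card ≤ n + 1 := by
    refine (Finset.card_insert_le _ _).trans ?_
    have := Finset.card_image_le (s := (univ : Finset (Fin n))) (f := fun k : Fin n =>
      - ((2 : ZMod l) ^ e k)⁻¹)
    simp only [Finset.card_univ, Fintype.card_fin] at this
    omega
  obtain ⟨y, -, hyT⟩ := Finset.exists_mem_notMem_of_card_lt_card (s := T)
    (t := (univ : Finset (ZMod l))) (by rw [Finset.card_univ, ZMod.card]; omega)
  rw [hT, mem_insert, not_or] at hyT
  refine ⟨y.val, ok_of e _ hyT.1 ?_⟩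
  intro k hk
  apply hyT.2
  rw [mem_image]
  refine ⟨k, mem_univ _, ?_⟩
  have h3 : (2 : ZMod l) ^ e k * y = -1 := eq_neg_of_add_eq_zero_left hk
  calc - ((2 : ZMod l) ^ e k)⁻¹ = ((2 : ZMod l) ^ e k * y) * ((2 : ZMod l) ^ e k)⁻¹ := by
        rw [h3]; ring
    _ = y := by field_simp [ha k]

/-- every prime has an admissible residue -/
theorem exists_ok {n N0 : ℕ} (e : Fin n → ℕ) (hN : 2 * n + 7 ≤ N0) (h3 : ∀ i, 3 ≤ e i)
    (hf : ∀ i, N0.factorial ∣ e i) {l : ℕ} (hl : l.Prime) : ∃ r : ℕ, ok e l r := by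
  have : Fact l.Prime := ⟨hl⟩
  rcases le_or_gt l N0 with h | h
  · refine ⟨1, ?_, fun k hk => ?_⟩
    · rw [Nat.dvd_one]; exact hl.one_lt.ne'
    · rw [mul_one] at hk
      rcases hl.eq_two_or_odd' with h2 | h2
      · subst h2
        have : 2 ∣ 2 ^ e k := dvd_pow_self _ (by have := h3 k; omega)
        have h4 : 2 ∣ 1 := (Nat.dvd_add_right this).1 hk
        norm_num at h4
      · have hl2 : 2 < l := by
          have := hl.two_le
          rcases this.lt_or_eq with h' | h'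
          · exact h'
          · subst h'; exact absurd h2 (by decide)
        have hd : l - 1 ∣ e k := (Nat.dvd_factorial (by omega) (by omega)).trans (hf k)
        obtain ⟨m, hm⟩ := hd
        have h5 : (2 : ZMod l) ^ e k = 1 := by
          rw [hm, pow_mul, ZMod.pow_card_sub_one_eq_one (two_ne hl2), one_pow]
        rw [← ZMod.natCast_eq_zero_iff] at hk
        push_cast at hk
        rw [h5] at hk
        exact two_ne hl2 (by rw [← hk]; norm_num)
  · exact exists_r0 e (by omega)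

/-- Jacobi symbols modulo `N` depend on the residues modulo the primes of `N` -/
theorem jac_congr (x y : ℤ) (N : ℕ) (hN : N ≠ 0)
    (h : ∀ p : ℕ, p.Prime → p ∣ N → x % p = y % p) : J(x | N) = J(y | N) := by
  induction N using Nat.recOnMul with
  | zero => exact absurd rfl hN
  | one => rw [jacobiSym.one_right, jacobiSym.one_right]
  | prime p hp => rw [jacobiSym.mod_left x p, jacobiSym.mod_left y p, h p hp (dvd_refl _)]
  | mul a b iha ihb =>
    have ha : a ≠ 0 := left_ne_zero_of_mul hN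
    have hb : b ≠ 0 := right_ne_zero_of_mul hN
    rw [jacobiSym.mul_right' x ha hb, jacobiSym.mul_right' y ha hb,
      iha ha (fun p hp hd => h p hp (hd.mul_right _)), ihb hb (fun p hp hd => h p hp (hd.mul_left _))]

/-- CRT over the prime factors of `W` -/
theorem crt (W : ℕ) (ρ : ℕ → ℕ) : ∃ b : ℕ, ∀ l ∈ W.primeFactors, b ≡ ρ l [MOD l] := by
  classical
  have hs : ∀ i ∈ W.primeFactors, (id i : ℕ) ≠ 0 := fun i hi => (Nat.prime_of_mem_primeFactors hi).ne_zero
  have pp : Set.Pairwise (↑W.primeFactors) (Function.onFun Nat.Coprime id) := by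
    intro a ha b hb hab
    exact (Nat.coprime_primes (Nat.prime_of_mem_primeFactors ha)
      (Nat.prime_of_mem_primeFactors hb)).2 hab
  exact ⟨_, (Nat.chineseRemainderOfFinset ρ id W.primeFactors hs pp).2⟩

/-- the Jacobi symbol of two forms -/
theorem jac_forms {a b t : ℕ} (ha : 3 ≤ a) (hab : a < b) :
    J(((2 ^ a * t + 1 : ℕ) : ℤ) | 2 ^ b * t + 1) =
      J(((2 ^ b * t + 1 : ℕ) : ℤ) | 2 ^ (b - a) - 1) := by
  set p := 2 ^ a * t + 1 with hp
  set q := 2 ^ b * t + 1 with hq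
  set d := b - a with hd
  have hd1 : 1 ≤ d := by omega
  have hb8 : 8 ∣ 2 ^ b := by
    have := pow_dvd_pow 2 (show 3 ≤ b by omega)
    simpa using this
  obtain ⟨m, hm⟩ := hb8
  have hq8 : q % 8 = 1 := by rw [hq, hm, mul_assoc]; omega
  have hD1 : 1 ≤ 2 ^ d := Nat.one_le_two_pow
  have hDodd : Odd (2 ^ d - 1) := by
    obtain ⟨d', hd'⟩ := Nat.exists_eq_add_of_le hd1
    refine ⟨2 ^ d' - 1, ?_⟩
    have : 1 ≤ 2 ^ d' := Nat.one_le_two_pow
    rw [hd', pow_add]; omega
  have hqodd : Odd q := by rw [Nat.odd_iff]; omega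
  -- 2 ^ d * p = q + D
  have h1 : 2 ^ d * p = q + (2 ^ d - 1) := by
    have h2 : 2 ^ d * 2 ^ a = 2 ^ b := by rw [← pow_add]; congr 1; omega
    rw [hp, hq, mul_add, ← mul_assoc, h2]; omega
  have h2 : J((2 : ℤ) | q) = 1 := by
    rw [jacobiSym.at_two hqodd, ZMod.χ₈_nat_eq_if_mod_eight, hq8]
    have : ¬ q % 2 = 0 := by omega
    simp [this]
  have h3 : J(((2 ^ d * p : ℕ) : ℤ) | q) = J((p : ℤ) | q) := by
    push_cast
    rw [jacobiSym.mul_left, jacobiSym.pow_left, h2, one_pow, one_mul]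
  have h4 : J(((2 ^ d * p : ℕ) : ℤ) | q) = J(((2 ^ d - 1 : ℕ) : ℤ) | q) := by
    rw [h1]
    apply jacobiSym.mod_left'
    push_cast [Nat.cast_sub hD1]
    rw [Int.add_emod_left]
  rw [← h3, h4]
  exact (jacobiSym.quadratic_reciprocity_one_mod_four (by omega) hDodd).symm

end TUPx

open TUPx in
theorem TUP (h : S_TU2) : S_TUP := by
  classical
  intro n w0
  set N0 := max w0 (2 * n + 7) with hN0
  obtain ⟨e, L, hmono, h3, hf, hL⟩ := h n N0
  set D : Fin n → Fin n → ℕ := fun i j => 2 ^ (e j - e i) - 1 with hD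
  have hDpos : ∀ i j, i < j → 0 < D i j := by
    intro i j hij
    have := hmono hij
    have : 2 ^ 1 ≤ 2 ^ (e j - e i) := Nat.pow_le_pow_right (by norm_num) (by omega)
    simp only [hD]; omega
  set W : ℕ := 2 * N0.factorial * ∏ i, ∏ j, (if i < j then D i j else 1) with hW
  have hprodpos : 0 < ∏ i, ∏ j, (if i < j then D i j else 1) := by
    refine Finset.prod_pos fun i _ => Finset.prod_pos fun j _ => ?_
    split_ifs with hij
    · exact hDpos i j hij
    · norm_num
  have hWpos : 0 < W := by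
    rw [hW]
    have := Nat.factorial_pos N0
    positivity
  have h2W : 2 ∣ W := by
    rw [hW, mul_assoc]; exact dvd_mul_right _ _
  have hDW : ∀ i j, i < j → D i j ∣ W := by
    intro i j hij
    refine Dvd.dvd.mul_left ?_ _
    refine Dvd.dvd.trans ?_ (Finset.dvd_prod_of_mem _ (mem_univ i))
    refine Dvd.dvd.trans ?_ (Finset.dvd_prod_of_mem _ (mem_univ j))
    rw [if_pos hij]
  have hsmall : ∀ p : ℕ, p.Prime → p ≤ N0 → p ∣ W := by
    intro p hp hpN
    rw [hW]
    exact ((Nat.dvd_factorial hp.pos hpN).mul_left 2).mul_right _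
  -- generic residues
  have hex : ∀ l : ℕ, l.Prime → ∃ r : ℕ, ok e l r := fun l hl =>
    exists_ok e (le_max_right _ _) h3 hf hl
  choose! ρ0 hρ0 using hex
  obtain ⟨b0, hb0⟩ := crt W ρ0
  have hb0ok : ∀ l ∈ W.primeFactors, ok e l b0 := fun l hl =>
    ok_congr (hb0 l hl) (hρ0 l (Nat.prime_of_mem_primeFactors hl))
  have hLd : ∀ i j, i < j → L i j ∣ D i j := by
    intro i j hij
    obtain ⟨-, -, hv, -⟩ := hL i j hij
    by_contra hc
    rw [padicValNat.eq_zero_of_not_dvd hc] at hv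
    exact absurd hv (by decide)
  -- the complementary part
  set v : Fin n → Fin n → ℕ := fun i j => padicValNat (L i j) (D i j) with hv
  have hN : ∀ i j, ∃ N : ℕ, i < j → (D i j = L i j ^ v i j * N ∧ ¬ L i j ∣ N ∧ N ≠ 0) := by
    intro i j
    by_cases hij : i < j
    · have hlp := (hL i j hij).1
      have : Fact (L i j).Prime := ⟨hlp⟩
      obtain ⟨N, hNe⟩ := pow_padicValNat_dvd (p := L i j) (n := D i j)
      refine ⟨N, fun _ => ⟨hNe, ?_, ?_⟩⟩
      · intro hd
        have h5 : L i j ^ (v i j + 1) ∣ D i j := by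
          rw [hNe, pow_succ]; exact mul_dvd_mul_left _ hd
        exact pow_succ_padicValNat_not_dvd (hDpos i j hij).ne' h5
      · rintro rfl
        have := hDpos i j hij
        rw [hNe] at this; simp at this
    · exact ⟨1, fun h => absurd h hij⟩
  choose N hN using hN
  have hND : ∀ i j, i < j → N i j ∣ D i j := fun i j hij => by
    rw [(hN i j hij).1]; exact dvd_mul_left _ _
  -- the sign
  have hs : ∀ i j, i < j → J(((2 ^ e j * b0 + 1 : ℕ) : ℤ) | N i j) = 1 ∨
      J(((2 ^ e j * b0 + 1 : ℕ) : ℤ) | N i j) = -1 := by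
    intro i j hij
    apply jacobiSym.eq_one_or_neg_one
    rw [← Int.isCoprime_iff_gcd_eq_one, Nat.isCoprime_iff_coprime]
    refine Nat.Coprime.symm (Nat.coprime_of_dvd fun p hp hpN hpx => ?_)
    have hpW : p ∈ W.primeFactors := Nat.mem_primeFactors.2
      ⟨hp, (hpN.trans (hND i j hij)).trans (hDW i j hij), hWpos.ne'⟩
    exact (hb0ok p hpW).2 j hpx
  -- special residues
  have hr : ∀ i j, ∃ r : ℕ, i < j → (ok e (L i j) r ∧
      J(((2 ^ e j * r + 1 : ℕ) : ℤ) | L i j) = - J(((2 ^ e j * b0 + 1 : ℕ) : ℤ) | N i j)) := by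
    intro i j
    by_cases hij : i < j
    · have hlp := (hL i j hij).1
      have : Fact (L i j).Prime := ⟨hlp⟩
      have hlN := (hL i j hij).2.1
      have hN7 : 2 * n + 7 ≤ N0 := le_max_right _ _
      obtain ⟨r, hr1, hr2⟩ := exists_r e (l := L i j) (by omega) j
        (- J(((2 ^ e j * b0 + 1 : ℕ) : ℤ) | N i j)) (by
          rcases hs i j hij with h | h <;> rw [h] <;> norm_num)
      refine ⟨r, fun _ => ⟨hr1, ?_⟩⟩
      rw [← jacobiSym.legendreSym.to_jacobiSym, legendreSym, ← hr2]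
      push_cast
      rfl
    · exact ⟨0, fun h => absurd h hij⟩
  choose r hr using hr
  -- the final residues
  have hρ : ∀ l : ℕ, ∃ s : ℕ, (∀ i j, i < j → L i j = l → s = r i j) ∧
      ((∀ i j, i < j → L i j ≠ l) → s = b0) := by
    intro l
    by_cases hc : ∃ i j, i < j ∧ L i j = l
    · obtain ⟨i, j, hij, hl⟩ := hc
      refine ⟨r i j, fun i' j' hij' hl' => ?_, fun h => absurd hl (h i j hij)⟩
      by_cases heq : (i', j') = (i, j)
      · rw [Prod.mk.injEq] at heq
        rw [heq.1, heq.2]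
      · exfalso
        have h6 := (hL i j hij).2.2.2 i' j' hij' heq
        apply h6
        rw [hl, ← hl']
        exact hLd i' j' hij'
    · refine ⟨b0, fun i j hij hl => absurd ⟨i, j, hij, hl⟩ hc, fun _ => rfl⟩
  choose ρ hρ1 hρ2 using hρ
  obtain ⟨b, hb⟩ := crt W ρ
  have hbok : ∀ l ∈ W.primeFactors, ok e l b := by
    intro l hl
    refine ok_congr (hb l hl) ?_
    by_cases hc : ∃ i j, i < j ∧ L i j = l
    · obtain ⟨i, j, hij, rfl⟩ := hc
      rw [hρ1 _ i j hij rfl]
      exact (hr i j hij).1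
    · rw [hρ2 l (fun i j hij hl' => hc ⟨i, j, hij, hl'⟩)]
      exact hb0ok l hl
  refine ⟨e, W, b, hmono, h3, ⟨hWpos, fun p hp hpw => hsmall p hp (hpw.trans (le_max_left _ _)),
    fun i j hij => Nat.pow_lt_pow_right (by norm_num) (hmono hij), fun i => Nat.one_le_two_pow,
    ?_, ?_, ?_, ?_⟩, ?_, ?_⟩
  · intro i p hp hpd
    have := hp.dvd_of_dvd_pow hpd
    rw [(Nat.prime_dvd_prime_iff_eq hp Nat.prime_two).1 this]
    exact h2W
  · intro i j hij p hp hpd
    have h7 : 2 ^ e j - 2 ^ e i = 2 ^ e i * D i j := by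
      have := hmono hij
      simp only [hD]
      rw [Nat.mul_sub, mul_one, ← pow_add]
      congr 2; omega
    simp only [h7] at hpd
    rcases (hp.dvd_mul).1 hpd with h8 | h8
    · have := hp.dvd_of_dvd_pow h8
      rw [(Nat.prime_dvd_prime_iff_eq hp Nat.prime_two).1 this]
      exact h2W
    · exact h8.trans (hDW i j hij)
  · refine Nat.Coprime.symm (Nat.coprime_of_dvd fun p hp hpW hpb => ?_)
    exact (hbok p (Nat.mem_primeFactors.2 ⟨hp, hpW, hWpos.ne'⟩)).1 hpb
  · intro i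
    refine Nat.Coprime.symm (Nat.coprime_of_dvd fun p hp hpW hpb => ?_)
    exact (hbok p (Nat.mem_primeFactors.2 ⟨hp, hpW, hWpos.ne'⟩)).2 i hpb
  · intro i j hij t ht
    rw [jac_forms (h3 i) (hmono hij)]
    obtain ⟨hDe, hlN, hN0'⟩ := hN i j hij
    have hlp := (hL i j hij).1
    have hDe' : 2 ^ (e j - e i) - 1 = L i j ^ v i j * N i j := hDe
    rw [hDe', jacobiSym.mul_right' _ (pow_ne_zero _ hlp.ne_zero) hN0', jacobiSym.pow_right]
    have htl : ∀ l ∈ W.primeFactors, t ≡ ρ l [MOD l] := fun l hl =>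
      (ht.of_dvd (Nat.dvd_of_mem_primeFactors hl)).trans (hb l hl)
    have hcast : ∀ (l x y : ℕ), x ≡ y [MOD l] →
        (((2 ^ e j * x + 1 : ℕ) : ℤ)) % (l : ℤ) = ((2 ^ e j * y + 1 : ℕ) : ℤ) % (l : ℤ) := by
      intro l x y hxy
      have : 2 ^ e j * x + 1 ≡ 2 ^ e j * y + 1 [MOD l] := (hxy.mul_left _).add_right _
      exact_mod_cast this
    have hlW : L i j ∈ W.primeFactors := Nat.mem_primeFactors.2
      ⟨hlp, (hLd i j hij).trans (hDW i j hij), hWpos.ne'⟩
    have e1 : J(((2 ^ e j * t + 1 : ℕ) : ℤ) | L i j) = J(((2 ^ e j * r i j + 1 : ℕ) : ℤ) | L i j) := by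
      apply jacobiSym.mod_left'
      apply hcast
      have := htl _ hlW
      rwa [hρ1 _ i j hij rfl] at this
    have e2 : J(((2 ^ e j * t + 1 : ℕ) : ℤ) | N i j) = J(((2 ^ e j * b0 + 1 : ℕ) : ℤ) | N i j) := by
      apply jac_congr _ _ _ hN0'
      intro p hp hpN
      apply hcast
      have hpD := hpN.trans (hND i j hij)
      have hpW : p ∈ W.primeFactors := Nat.mem_primeFactors.2
        ⟨hp, hpD.trans (hDW i j hij), hWpos.ne'⟩
      have := htl p hpW
      rwa [hρ2 p ?_] at this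
      intro i' j' hij' hl'
      subst hl'
      by_cases heq : (i, j) = (i', j')
      · rw [Prod.mk.injEq] at heq
        rw [← heq.1, ← heq.2] at hpN
        exact hlN hpN
      · exact (hL i' j' hij').2.2.2 i j hij heq hpD
    rw [e1, e2, (hr i j hij).2]
    have hvo : Odd (v i j) := (hL i j hij).2.2.1
    rcases hs i j hij with h | h <;> rw [h]
    · rw [hvo.neg_pow]; norm_num
    · norm_num
  · intro i j hij
    refine ⟨L i j, (hL i j hij).1, hLd i j hij, fun i' hi' hne hd => ?_⟩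
    exact (hL i j hij).2.2.2 i' j hi' (fun h => hne (by rw [Prod.mk.injEq] at h; exact h.1)) hd

end MTA
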